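import Pool.Agent.Y811.IR.Stm

set_option autoImplicit false

/-! BRANCH: inverse branches on a disc. -/

open Filter Topology Metric Set

namespace Pool.Agent.Y297.IR

open Pool.Agent.Y811.IR

/-- a holomorphic square root of a nonvanishing holomorphic function on a disc -/
theorem sqrt_ball (g : ℂ → ℂ) (a : ℂ) (r : ℝ) (hr : 0 < r)
    (hg : DifferentiableOn ℂ g (ball a r)) (hne : ∀ z ∈ ball a r, g z ≠ 0) (w : ℂ)
    (hw : w ^ 2 = g a) :
    ∃ s : ℂ → ℂ, DifferentiableOn ℂ s (ball a r) ∧ s a = w ∧ ∀ z ∈ ball a r, s z ^ 2 = g z := by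
  have hd : DifferentiableOn ℂ (fun z => deriv g z / g z) (ball a r) :=
    (hg.deriv isOpen_ball).div hg hne
  obtain ⟨L, hL1, hL2⟩ := hd.isExactOn_ball.with_val_at a 0
  have hgd : ∀ z ∈ ball a r, HasDerivAt g (deriv g z) z := fun z hz =>
    ((hg z hz).differentiableAt (isOpen_ball.mem_nhds hz)).hasDerivAt
  have hF : ∀ z ∈ ball a r, HasDerivAt (fun z => g z * Complex.exp (-L z)) 0 z := by
    intro z hz
    have h1 := (hgd z hz).mul ((hL2 z hz).neg.cexp)
    have h3 : g z * (deriv g z / g z) = deriv g z := mul_div_cancel₀ _ (hne z hz)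
    refine HasDerivAt.congr_deriv (f := fun z => g z * Complex.exp (-L z)) h1 ?_
    linear_combination -Complex.exp (-L z) * h3
  have hc : ∀ z ∈ ball a r, g z * Complex.exp (-L z) = g a := by
    intro z hz
    have h1 := isOpen_ball.is_const_of_deriv_eq_zero (convex_ball a r).isPreconnected
      (f := fun z => g z * Complex.exp (-L z))
      (fun z hz => (hF z hz).differentiableAt.differentiableWithinAt)
      (fun z hz => (hF z hz).deriv) hz (mem_ball_self hr)
    rw [h1, hL1]
    simp
  refine ⟨fun z => w * Complex.exp (L z / 2), ?_, ?_, ?_⟩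
  · intro z hz
    have h1 := ((hL2 z hz).div_const 2).cexp.const_mul w
    exact h1.differentiableAt.differentiableWithinAt
  · simp only
    rw [hL1]
    simp
  · intro z hz
    have h1 : (w * Complex.exp (L z / 2)) ^ 2 = w ^ 2 * Complex.exp (L z) := by
      rw [mul_pow, ← Complex.exp_nat_mul]
      congr 2
      push_cast
      ring
    rw [h1, hw, ← hc z hz, mul_assoc, ← Complex.exp_add]
    simp

theorem t_BRANCH (h1 : S_BASIN) (h2 : S_SURJ) : S_BRANCH := by
  intro c N a hA h0
  have hAi : ∀ i : ℕ, Attr c N ((q c)^[i] a) := by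
    intro i
    induction i with
    | zero => exact hA
    | succ i ih =>
      rw [Function.iterate_succ_apply']
      exact (h2 c N _ ih).1
  have hN : 1 ≤ N := hA.1
  have hback : ∀ n : ℕ, q c ((q c)^[(N - 1) * (n + 1)] a) = (q c)^[(N - 1) * n] a := by
    intro n
    rw [← Function.iterate_succ_apply' (q c)]
    have e : (N - 1) * (n + 1) + 1 = (N - 1) * n + N := by
      rw [Nat.mul_succ]
      omega
    rw [show ((N - 1) * (n + 1)).succ = (N - 1) * n + N from e, Function.iterate_add_apply, hA.2.1]
  obtain ⟨hop, hmem, -⟩ := h1 c N a hA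
  obtain ⟨r, hr, hball⟩ := Metric.isOpen_iff.mp hop a hmem
  refine ⟨r, hr, fun n => ?_⟩
  induction n with
  | zero =>
    refine ⟨fun z => z, differentiableOn_id, rfl, fun z _ => rfl, fun z hz => ?_⟩
    exact (convex_ball a r).isPreconnected.subset_connectedComponentIn (mem_ball_self hr) hball hz
  | succ n ih =>
    obtain ⟨h, hd, ha, hit, him⟩ := ih
    obtain ⟨-, hsurj, hbas⟩ := h2 c N _ (hAi ((N - 1) * (n + 1)))
    rw [hback n] at hsurj hbas
    have hne : ∀ z ∈ ball a r, h z - c ≠ 0 := by
      intro z hz hzc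
      have h3 : h z ∈ Imm ((q c)^[N]) ((q c)^[(N - 1) * n] a) := him z hz
      rw [← hsurj] at h3
      obtain ⟨w, hw, hwz⟩ := h3
      have h4 : w ^ 2 = 0 := by
        have : w ^ 2 + c = h z := hwz
        linear_combination this + hzc
      have h5 : w = 0 := by simpa using h4
      rw [h5] at hw
      exact h0 _ hw
    have hsq : ((q c)^[(N - 1) * (n + 1)] a) ^ 2 = h a - c := by
      rw [ha, ← hback n]
      unfold q
      ring
    obtain ⟨s, hs1, hs2, hs3⟩ := sqrt_ball (fun z => h z - c) a r hr
      (hd.sub (differentiableOn_const c)) hne _ hsq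
    have hqs : ∀ z ∈ ball a r, q c (s z) = h z := by
      intro z hz
      have := hs3 z hz
      unfold q
      linear_combination this
    refine ⟨s, hs1, hs2, fun z hz => ?_, fun z hz => ?_⟩
    · rw [Function.iterate_succ_apply, hqs z hz]
      exact hit z hz
    · have hpre : IsPreconnected (s '' ball a r) :=
        (convex_ball a r).isPreconnected.image s hs1.continuousOn
      refine hpre.subset_connectedComponentIn ⟨a, mem_ball_self hr, hs2⟩ ?_ ⟨z, hz, rfl⟩
      rintro _ ⟨y, hy, rfl⟩
      apply hbas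
      rw [hqs y hy]
      exact connectedComponentIn_subset _ _ (him y hy)

end Pool.Agent.Y297.IR
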